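import Pool.Agent.Y938.PD.Stm

/-!
Project PD: homomorphisms of the character group to the integers are evaluations (helper930).
-/

set_option autoImplicit false

open Filter Topology Set

namespace Pool.Agent.Y938.PD

namespace Eval

section

variable {G : Type} [AddCommGroup G] [TopologicalSpace G] [IsTopologicalAddGroup G]

lemma cont_of_ker {W : AddSubgroup G} (hW : IsOpen (W : Set G)) (f : G →+ ℤ) (hf : W ≤ f.ker) :
    Continuous f := by
  apply continuous_of_continuousAt_zero f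
  rw [ContinuousAt, nhds_discrete ℤ, tendsto_pure]
  filter_upwards [hW.mem_nhds W.zero_mem] with x hx
  rw [map_zero]
  exact hf hx

/-- on the characters which vanish on `W`, a homomorphism is an evaluation -/
lemma rep (h2 : S_quot) (hK : ∃ K : Set G, IsCompact K ∧ AddSubgroup.closure K = ⊤)
    (h : Chr G →+ ℤ) (W : AddSubgroup G) (hW : Sat W) :
    ∃ g : G, ∀ ψ : Chr G, W ≤ ψ.1.ker → h ψ = ψ.1 g := by
  obtain ⟨r, χ, h3, h4, h5, h6⟩ := h2 G hK W hW
  let X : Fin r → Chr G := fun i => ⟨χ i, cont_of_ker hW.1 (χ i) (h3 i)⟩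
  obtain ⟨g, hg⟩ := h5 fun i => h (X i)
  refine ⟨g, fun ψ hψ => ?_⟩
  obtain ⟨c, hc⟩ := h6 ψ.1 hψ
  have h7 : ψ = ∑ i, c i • X i := by
    apply Subtype.ext
    rw [hc, AddSubgroup.val_finsetSum]
    rfl
  have h8 : ψ.1 g = ∑ i, c i • χ i g := by
    rw [hc]
    simp
  rw [h8, h7, map_sum]
  refine Finset.sum_congr rfl fun i _ => ?_
  rw [map_zsmul, hg i]

/-- the characters which vanish on `W` detect `W` -/
lemma sep (h2 : S_quot) (hK : ∃ K : Set G, IsCompact K ∧ AddSubgroup.closure K = ⊤)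
    (W : AddSubgroup G) (hW : Sat W) (g : G) (hg : ∀ ψ : Chr G, W ≤ ψ.1.ker → ψ.1 g = 0) :
    g ∈ W := by
  obtain ⟨r, χ, h3, h4, h5, h6⟩ := h2 G hK W hW
  exact h4 g fun i => hg ⟨χ i, cont_of_ker hW.1 (χ i) (h3 i)⟩ (h3 i)

omit [IsTopologicalAddGroup G] in
lemma sat_inf {W W' : AddSubgroup G} (h : Sat W) (h' : Sat W') : Sat (W ⊓ W') := by
  refine ⟨h.1.inter h'.1, fun n g hn hg => ?_⟩
  exact ⟨h.2 n g hn hg.1, h'.2 n g hn hg.2⟩

omit [IsTopologicalAddGroup G] in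
lemma sat_top : Sat (⊤ : AddSubgroup G) :=
  ⟨isOpen_univ, fun _ _ _ _ => trivial⟩

omit [IsTopologicalAddGroup G] in
lemma sat_ker (χ : Chr G) : Sat χ.1.ker := by
  constructor
  · have h1 : Continuous χ.1 := χ.2
    exact (isOpen_discrete ({0} : Set ℤ)).preimage h1
  · intro n g hn hg
    rw [AddMonoidHom.mem_ker] at hg ⊢
    rw [map_nsmul, nsmul_eq_mul] at hg
    rcases mul_eq_zero.mp hg with h | h
    · exact absurd (by exact_mod_cast h) hn
    · exact h

end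

end Eval

open Eval in
theorem eval_spec (h2 : S_quot) : S_eval := by
  intro G _ _ _ _ _ hK hb h
  have hrep : ∀ W : {W : AddSubgroup G // Sat W}, ∃ g : G, ∀ ψ : Chr G,
      W.1 ≤ ψ.1.ker → h ψ = ψ.1 g := fun W => rep h2 hK h W.1 W.2
  choose γ hγ using hrep
  have hsub : ∀ W W' : {W : AddSubgroup G // Sat W}, W'.1 ≤ W.1 → γ W' - γ W ∈ W.1 := by
    intro W W' hle
    refine sep h2 hK W.1 W.2 _ fun ψ hψ => ?_
    rw [map_sub, ← hγ W' ψ (hle.trans hψ), ← hγ W ψ hψ, sub_self]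
  let _ : SemilatticeInf {W : AddSubgroup G // Sat W} :=
    Subtype.semilatticeInf fun _ _ h h' => sat_inf h h'
  have _ : Nonempty {W : AddSubgroup G // Sat W}ᵒᵈ := ⟨OrderDual.toDual ⟨⊤, sat_top⟩⟩
  let u : {W : AddSubgroup G // Sat W}ᵒᵈ → G := fun W => γ (OrderDual.ofDual W)
  have hle : ∀ (W W' : {W : AddSubgroup G // Sat W}),
      OrderDual.toDual W ≤ OrderDual.toDual W' → W'.1 ≤ W.1 := by
    intro W W' h
    have h1 : W' ≤ W := OrderDual.toDual_le_toDual.mp h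
    exact h1
  have hcau : ∀ V ∈ uniformity G, ∃ N, ∀ k, N ≤ k → ∀ l, N ≤ l → (u k, u l) ∈ id V := by
    intro V hV
    rw [uniformity_eq_comap_nhds_zero G, Filter.mem_comap] at hV
    obtain ⟨s, hs, hsV⟩ := hV
    obtain ⟨W, hW, hWs⟩ := hb s hs
    refine ⟨OrderDual.toDual ⟨W, hW⟩, fun k hk l hl => hsV ?_⟩
    have h1 := hsub ⟨W, hW⟩ (OrderDual.ofDual k) (hle ⟨W, hW⟩ (OrderDual.ofDual k) hk)
    have h2 := hsub ⟨W, hW⟩ (OrderDual.ofDual l) (hle ⟨W, hW⟩ (OrderDual.ofDual l) hl)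
    change u l - u k ∈ s
    apply hWs
    have h3 := W.sub_mem h2 h1
    have e : (γ (OrderDual.ofDual l) - γ ⟨W, hW⟩) - (γ (OrderDual.ofDual k) - γ ⟨W, hW⟩)
        = u l - u k := by
      change _ = γ (OrderDual.ofDual l) - γ (OrderDual.ofDual k)
      abel
    rw [e] at h3
    exact h3
  obtain ⟨g, hg⟩ := cauchySeq_tendsto_of_complete
    (((uniformity G).basis_sets.cauchySeq_iff (u := u)).mpr hcau)
  refine ⟨g, fun χ => ?_⟩
  let W : {W : AddSubgroup G // Sat W} := ⟨χ.1.ker, sat_ker χ⟩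
  have hcl : IsClosed (χ.1.ker : Set G) := AddSubgroup.isClosed_of_isOpen _ (sat_ker χ).1
  have h3 : Tendsto (fun k => u k - γ W) atTop (𝓝 (g - γ W)) := hg.sub_const _
  have h4 : g - γ W ∈ (χ.1.ker : Set G) := by
    refine hcl.mem_of_tendsto h3 ?_
    filter_upwards [eventually_ge_atTop (OrderDual.toDual W)] with k hk
    exact hsub W (OrderDual.ofDual k) (hle W (OrderDual.ofDual k) hk)
  have h5 : χ.1 (g - γ W) = 0 := h4
  rw [map_sub, sub_eq_zero] at h5
  rw [h5]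
  exact hγ W χ le_rfl

end Pool.Agent.Y938.PD
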