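import Pool.Agent.Y938.PD.Stm

set_option autoImplicit false

open Filter Topology Set

namespace Pool.Agent.Y938.PD

/-- bounding a homomorphism evaluated at an element generated by `K` -/
theorem bdd {G : Type} [AddCommGroup G] (K : Set G) (hK : AddSubgroup.closure K = ⊤) (g : G) :
    ∃ m : ℕ, ∀ (χ : G →+ ℤ) (B : ℕ), (∀ k ∈ K, |χ k| ≤ B) → |χ g| ≤ m * B := by
  have hg : g ∈ AddSubgroup.closure K := by rw [hK]; trivial
  induction hg using AddSubgroup.closure_induction with
  | mem x hx => exact ⟨1, fun χ B h => by simpa using h x hx⟩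
  | zero => exact ⟨0, fun χ B h => by simp⟩
  | add x y _ _ hx hy =>
    obtain ⟨m, hm⟩ := hx
    obtain ⟨k, hk⟩ := hy
    refine ⟨m + k, fun χ B h => ?_⟩
    have h1 := hm χ B h
    have h2 := hk χ B h
    have h3 := abs_add_le (χ x) (χ y)
    rw [map_add]
    push_cast
    linarith
  | neg x _ hx =>
    obtain ⟨m, hm⟩ := hx
    exact ⟨m, fun χ B h => by rw [map_neg, abs_neg]; exact hm χ B h⟩

theorem final (h1 : S_sat) (h2 : S_quot) (h3 : S_eval) (h4 : S_nob) :
    ∀ (G : Type) [AddCommGroup G] [UniformSpace G] [IsUniformAddGroup G]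
      [T2Space G] [CompleteSpace G],
      (∀ s ∈ nhds (0 : G), ∃ U : AddSubgroup G, IsOpen (U : Set G) ∧ (U : Set G) ⊆ s) →
      (∃ K : Set G, IsCompact K ∧ AddSubgroup.closure K = ⊤) →
      (∀ H : AddSubgroup G, IsCompact (H : Set G) → H = ⊥) →
      DiscreteTopology G ∧ ∃ n : ℕ, Nonempty (G ≃+ (Fin n → ℤ)) := by
  intro G _ _ _ _ _ hbas hK hcf
  have hsat := h1 G hbas hK hcf
  have hev := h3 G hK hsat
  obtain ⟨K, hKc, hKg⟩ := hK
  obtain ⟨r, χ, hχ⟩ := h4 G hbas K hKc hKg (by
    intro h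
    obtain ⟨g, hg⟩ := hev h
    obtain ⟨m, hm⟩ := bdd K hKg g
    exact ⟨m, fun χ B hB => by rw [hg χ]; exact hm χ.1 B hB⟩)
  -- the common kernel of the generating characters is trivial and open
  have hker : ∀ g : G, (∀ i, (χ i).1 g = 0) → g = 0 := by
    intro g hg
    by_contra hne
    have hn : ({g}ᶜ : Set G) ∈ nhds (0 : G) := isOpen_compl_singleton.mem_nhds (by
      intro h; exact hne (by simpa using h.symm))
    obtain ⟨W, hW, hWs⟩ := hsat _ hn
    obtain ⟨r', χ', ha, hb, hc, hd⟩ := h2 G ⟨K, hKc, hKg⟩ W hW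
    have hgW : g ∈ W := by
      apply hb
      intro i
      have hcont : Continuous (χ' i) := by
        refine continuous_of_continuousAt_zero (χ' i) ?_
        rw [ContinuousAt, map_zero]
        refine tendsto_nhds_of_eventually_eq ?_ |>.mono_right le_rfl
        exact Filter.mem_of_superset (hW.1.mem_nhds W.zero_mem) (fun x hx => ha i hx)
      obtain ⟨c, hc'⟩ := hχ ⟨χ' i, hcont⟩
      have h5 : χ' i = ∑ j, c j • (χ j).1 := by
        have := congrArg (fun z : Chr G => z.1) hc'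
        simpa using this
      rw [h5]
      simp only [AddMonoidHom.finsetSum_apply, AddMonoidHom.smul_apply]
      exact Finset.sum_eq_zero (fun j _ => by rw [hg j]; simp)
    exact hWs hgW rfl
  have hopen : IsOpen ({0} : Set G) := by
    have h6 : IsOpen (⋂ i, (χ i).1 ⁻¹' {0} : Set G) :=
      isOpen_iInter_of_finite (fun i => (isOpen_discrete ({0} : Set ℤ)).preimage (χ i).2)
    have h7 : (⋂ i, (χ i).1 ⁻¹' {0} : Set G) = {0} := by
      ext g
      simp only [mem_iInter, mem_preimage, mem_singleton_iff]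
      exact ⟨fun h => hker g h, fun h i => by rw [h]; simp⟩
    rwa [h7] at h6
  have hdisc : DiscreteTopology G := discreteTopology_of_isOpen_singleton_zero hopen
  refine ⟨hdisc, ?_⟩
  obtain ⟨W, hW, hWs⟩ := hsat {0} (hopen.mem_nhds rfl)
  obtain ⟨n, ψ, ha, hb, hc, hd⟩ := h2 G ⟨K, hKc, hKg⟩ W hW
  have hW0 : ∀ g ∈ W, g = 0 := fun g hg => hWs hg
  refine ⟨n, ⟨AddEquiv.ofBijective
    ({ toFun := fun g i => ψ i g, map_zero' := by ext i; simp, map_add' := fun x y => by
        ext i; simp } : G →+ (Fin n → ℤ)) ⟨?_, ?_⟩⟩⟩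
  · rw [injective_iff_map_eq_zero]
    intro g hg
    exact hW0 g (hb g (fun i => congrFun hg i))
  · intro z
    obtain ⟨g, hg⟩ := hc z
    exact ⟨g, funext hg⟩

end Pool.Agent.Y938.PD
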