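import Pool.Agent.Y938.PD.Stm

/-!
# PD4 (helper542 for helper938, job 11406): Nöbeling's theorem and a gliding hump
-/

set_option autoImplicit false

open Filter Topology Set

namespace Pool.Agent.Y938.PD.Nob

section
variable {G : Type} [AddCommGroup G] [UniformSpace G] [IsUniformAddGroup G] [T2Space G]

lemma totSep (hB : Bas G) : TotallySeparatedSpace G := by
  rw [totallySeparatedSpace_iff_exists_isClopen]
  intro x y hxy
  have h : ({x - y} : Set G)ᶜ ∈ nhds (0 : G) := by
    refine IsOpen.mem_nhds isOpen_compl_singleton ?_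
    intro h0
    have h1 : (0 : G) = x - y := h0
    exact hxy (sub_eq_zero.1 h1.symm)
  obtain ⟨U, hU, hUs⟩ := hB _ h
  have hc : Continuous fun g : G => g - x := continuous_id.sub continuous_const
  refine ⟨(fun g => g - x) ⁻¹' (U : Set G), ⟨(U.isClosed_of_isOpen hU).preimage hc, hU.preimage hc⟩, ?_, ?_⟩
  · show x - x ∈ U
    rw [sub_self]
    exact U.zero_mem
  · intro h1
    have h2 : y - x ∈ U := h1
    have h3 : x - y ∈ U := by
      have := U.neg_mem h2
      rwa [neg_sub] at this
    exact hUs h3 rfl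

/-- restriction to a subset -/
noncomputable def rho (K : Set G) : Chr G →+ LocallyConstant K ℤ where
  toFun χ := ⟨fun k => χ.1 k, (IsLocallyConstant.iff_continuous _).2 (by
    have h : Continuous χ.1 := χ.2
    exact h.comp continuous_subtype_val)⟩
  map_zero' := by
    ext k
    rfl
  map_add' a b := by
    ext k
    rfl

lemma rho_inj (K : Set G) (hK : AddSubgroup.closure K = ⊤) : Function.Injective (rho K) := by
  intro a b hab
  have h1 : ∀ k ∈ K, a.1 k = b.1 k := by
    intro k hk
    have h2 := congrArg (fun f : LocallyConstant K ℤ => f ⟨k, hk⟩) hab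
    exact h2
  have h2 : a.1 = b.1 := by
    ext g
    have hg : g ∈ AddSubgroup.closure K := by rw [hK]; trivial
    induction hg using AddSubgroup.closure_induction with
    | mem x hx => exact h1 x hx
    | zero => rw [map_zero, map_zero]
    | add x y _ _ hx hy => rw [map_add, map_add, hx, hy]
    | neg x _ hx => rw [map_neg, map_neg, hx]
  exact Subtype.ext h2

lemma bound (K : Set G) (hK : IsCompact K) (χ : Chr G) : ∃ B : ℕ, ∀ k ∈ K, |χ.1 k| ≤ B := by
  have h : Continuous χ.1 := χ.2
  obtain ⟨C, hC⟩ := hK.exists_bound_of_continuousOn h.continuousOn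
  refine ⟨⌈C⌉₊, fun k hk => ?_⟩
  have h1 := (hC k hk).trans (Nat.le_ceil C)
  rw [Int.norm_eq_abs] at h1
  exact_mod_cast h1

end

/-- the choice of the coefficients -/
lemma coeffs (s : ℕ → ℕ → ℤ) (M : ℕ → ℤ) (hs : ∀ n, s n n ≠ 0) :
    ∃ c : ℕ → ℤ, ∀ n, M n < |∑ m ∈ Finset.range (n + 1), c m * s n m| := by
  classical
  let g : ℕ → ℕ → ℤ := fun n => Nat.rec (fun _ => 0)
    (fun n g => Function.update g n (|M n| + |∑ m ∈ Finset.range n, g m * s n m| + 1)) n
  have hg : ∀ n, g (n + 1) = Function.update (g n) n (|M n| + |∑ m ∈ Finset.range n, g n m * s n m| + 1) :=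
    fun n => rfl
  have hst : ∀ n m, m < n → g n m = g (m + 1) m := by
    intro n m h
    induction n, h using Nat.le_induction with
    | base => rfl
    | succ n hn ih =>
      rw [hg n, Function.update_of_ne (by omega : m ≠ n)]
      exact ih
  refine ⟨fun m => g (m + 1) m, fun n => ?_⟩
  rw [Finset.sum_range_succ]
  beta_reduce
  have h1 : ∑ m ∈ Finset.range n, g (m + 1) m * s n m = ∑ m ∈ Finset.range n, g n m * s n m := by
    refine Finset.sum_congr rfl fun m hm => ?_
    rw [Finset.mem_range] at hm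
    rw [hst n m hm]
  have h2 : g (n + 1) n = |M n| + |∑ m ∈ Finset.range n, g n m * s n m| + 1 := by
    rw [hg n, Function.update_self]
  rw [h1, h2]
  obtain ⟨S, hS⟩ : ∃ S, S = ∑ m ∈ Finset.range n, g n m * s n m := ⟨_, rfl⟩
  rw [← hS]
  have h3 : 1 ≤ |s n n| := Int.one_le_abs (hs n)
  have h4 : |M n| + |S| + 1 ≤ |(|M n| + |S| + 1) * s n n| := by
    have h5 : 0 ≤ |M n| + |S| + 1 := by positivity
    rw [abs_mul, abs_of_nonneg h5]
    nlinarith
  have h5 : |(|M n| + |S| + 1) * s n n| ≤ |S + (|M n| + |S| + 1) * s n n| + |S| := by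
    have h6 := abs_sub (S + (|M n| + |S| + 1) * s n n) S
    rwa [add_sub_cancel_left] at h6
  have h6 := le_abs_self (M n)
  linarith

/-- the abstract gliding hump -/
lemma hump {A I : Type} [AddCommGroup A] (R : A →+ (I →₀ ℤ)) (Q : A → ℕ → Prop) (hQ : ∀ a, ∃ B, Q a B)
    (hinf : ¬ {i : I | ∃ a, R a i ≠ 0}.Finite) :
    ∃ h : A →+ ℤ, ∀ m : ℕ, ∃ a : A, ∃ B : ℕ, Q a B ∧ (m : ℤ) * B < |h a| := by
  classical
  have hpick : ∀ F : Finset I, ∃ q : I × A, q.1 ∉ F ∧ R q.2 q.1 ≠ 0 := by
    intro F
    by_contra hcon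
    push Not at hcon
    refine hinf (F.finite_toSet.subset ?_)
    rintro i ⟨a, ha⟩
    by_contra hi
    exact ha (hcon (i, a) hi)
  choose pick hp1 hp2 using hpick
  let F : ℕ → Finset I := fun n => Nat.rec ∅ (fun _ F => F ∪ (R (pick F).2).support) n
  have hF : ∀ n, F (n + 1) = F n ∪ (R (pick (F n)).2).support := fun n => rfl
  have hmono : ∀ m n, m ≤ n → F m ⊆ F n := by
    intro m n h
    induction n, h using Nat.le_induction with
    | base => exact Finset.Subset.refl _
    | succ n _ ih => rw [hF n]; exact ih.trans Finset.subset_union_left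
  obtain ⟨ι, hι⟩ : ∃ ι : ℕ → I, ι = fun n => (pick (F n)).1 := ⟨_, rfl⟩
  obtain ⟨a, ha⟩ : ∃ a : ℕ → A, a = fun n => (pick (F n)).2 := ⟨_, rfl⟩
  have hne : ∀ n, R (a n) (ι n) ≠ 0 := fun n => by rw [hι, ha]; exact hp2 _
  have hmem : ∀ n, ι n ∈ F (n + 1) := by
    intro n
    rw [hF n]
    apply Finset.mem_union_right
    rw [Finsupp.mem_support_iff]
    have := hne n
    rw [ha] at this
    exact this
  have hnm : ∀ n, ι n ∉ F n := fun n => by rw [hι]; exact hp1 _
  have hzero : ∀ n m, n < m → R (a n) (ι m) = 0 := by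
    intro n m h
    by_contra hcon
    refine hnm m (hmono (n + 1) m h ?_)
    rw [hF n]
    apply Finset.mem_union_right
    rw [Finsupp.mem_support_iff]
    rw [ha] at hcon
    exact hcon
  have hinj : Function.Injective ι := by
    intro n m h
    by_contra hcon
    rcases lt_or_gt_of_ne hcon with h1 | h1
    · refine hnm m (hmono (n + 1) m h1 ?_)
      rw [← h]
      exact hmem n
    · refine hnm n (hmono (m + 1) n h1 ?_)
      rw [h]
      exact hmem m
  choose B hB using hQ
  obtain ⟨c, hc⟩ := coeffs (fun n m => R (a n) (ι m)) (fun n => (n : ℤ) * B (a n)) hne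
  obtain ⟨v, hv⟩ : ∃ v : I → ℤ, v = fun i => if h : ∃ n, ι n = i then c h.choose else 0 := ⟨_, rfl⟩
  have hv1 : ∀ n, v (ι n) = c n := by
    intro n
    have h : ∃ m, ι m = ι n := ⟨n, rfl⟩
    rw [hv]
    dsimp only
    rw [dif_pos h]
    exact congrArg c (hinj h.choose_spec)
  have hv2 : ∀ i, (∀ n, ι n ≠ i) → v i = 0 := by
    intro i hi
    rw [hv]
    dsimp only
    rw [dif_neg]
    rintro ⟨n, hn⟩
    exact hi n hn
  refine ⟨((Finsupp.linearCombination ℤ v).toAddMonoidHom).comp R, fun m => ⟨a m, B (a m), hB (a m), ?_⟩⟩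
  have h1 : ((Finsupp.linearCombination ℤ v).toAddMonoidHom).comp R (a m) =
      ∑ k ∈ Finset.range (m + 1), c k * R (a m) (ι k) := by
    have e1 : ((Finsupp.linearCombination ℤ v).toAddMonoidHom).comp R (a m) = ∑ i ∈ (R (a m)).support, R (a m) i * v i := by
      show Finsupp.linearCombination ℤ v (R (a m)) = _
      rw [Finsupp.linearCombination_apply]
      rfl
    have e2 : ∑ i ∈ (R (a m)).support, R (a m) i * v i =
        ∑ i ∈ (R (a m)).support ∪ (Finset.range (m + 1)).image ι, R (a m) i * v i := by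
      refine Finset.sum_subset Finset.subset_union_left fun i _ hi => ?_
      rw [Finsupp.notMem_support_iff] at hi
      rw [hi, zero_mul]
    have e3 : ∑ i ∈ (Finset.range (m + 1)).image ι, R (a m) i * v i =
        ∑ i ∈ (R (a m)).support ∪ (Finset.range (m + 1)).image ι, R (a m) i * v i := by
      refine Finset.sum_subset Finset.subset_union_right fun i _ hi => ?_
      by_cases h2 : ∃ n, ι n = i
      · obtain ⟨n, rfl⟩ := h2
        have h3 : m < n := by
          by_contra hcon
          exact hi (Finset.mem_image.2 ⟨n, Finset.mem_range.2 (by omega), rfl⟩)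
        rw [hzero m n h3, zero_mul]
      · push Not at h2
        rw [hv2 i h2, mul_zero]
    rw [e1, e2, ← e3, Finset.sum_image (fun x _ y _ h => hinj h)]
    exact Finset.sum_congr rfl fun k _ => by rw [hv1, mul_comm]
  rw [h1]
  exact hc m

end Pool.Agent.Y938.PD.Nob

namespace Pool.Agent.Y938.PD

open Nob in
/-- PD4 -/
theorem nob_spec : S_nob := by
  classical
  intro G _ _ _ _ hB K hK hcl hyp
  have hts := totSep hB
  have : CompactSpace K := isCompact_iff_compactSpace.1 hK
  have hfree : Module.Free ℤ (LocallyConstant K ℤ) := LocallyConstant.freeOfProfinite (Profinite.of K)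
  let b := Module.Free.chooseBasis ℤ (LocallyConstant K ℤ)
  by_cases hfin : {i | ∃ a : Chr G, (b.repr.toLinearMap.toAddMonoidHom.comp (rho K)) a i ≠ 0}.Finite
  · have hfin' : Finite {i | ∃ a : Chr G, (b.repr.toLinearMap.toAddMonoidHom.comp (rho K)) a i ≠ 0} := hfin
    let J := {i | ∃ a : Chr G, (b.repr.toLinearMap.toAddMonoidHom.comp (rho K)) a i ≠ 0}
    let f : Chr G →ₗ[ℤ] (J → ℤ) :=
      LinearMap.pi fun j => (Finsupp.lapply j.1) ∘ₗ b.repr.toLinearMap ∘ₗ (rho K).toIntLinearMap
    have hf : Function.Injective f := by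
      intro x y hxy
      apply rho_inj K hcl
      apply b.repr.injective
      ext i
      by_cases hi : i ∈ J
      · exact congrFun hxy ⟨i, hi⟩
      · have h1 : ∀ a : Chr G, b.repr (rho K a) i = 0 := by
          intro a
          by_contra hcon
          exact hi ⟨a, hcon⟩
        rw [h1 x, h1 y]
    have hfg : Module.Finite ℤ (Chr G) := Module.Finite.of_injective f hf
    obtain ⟨n, F, hF⟩ := Module.Finite.exists_fin' ℤ (Chr G)
    refine ⟨n, fun i => F (fun j => if i = j then 1 else 0), fun ψ => ?_⟩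
    obtain ⟨c, hc⟩ := hF ψ
    exact ⟨c, by rw [← hc]; exact LinearMap.pi_apply_eq_sum_univ F c⟩
  · exfalso
    obtain ⟨h, hh⟩ := hump (A := Chr G) ((b.repr.toLinearMap.toAddMonoidHom.comp (rho K)))
      (fun χ B => ∀ k ∈ K, |χ.1 k| ≤ B) (fun χ => bound K hK χ) hfin
    obtain ⟨m, hm⟩ := hyp h
    obtain ⟨a, B, h1, h2⟩ := hh m
    exact absurd (hm a B h1) (not_le.2 h2)

end Pool.Agent.Y938.PD
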