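import Pool.Agent.Y938.PD.Stm

/-!
# PD2: the dual of a finitely generated torsion-free quotient
-/

set_option autoImplicit false

open Filter Topology Set

namespace Pool.Agent.Y938.PD

namespace Quot

variable {G : Type} [AddCommGroup G] [TopologicalSpace G] [IsTopologicalAddGroup G]

/-- the quotient is finitely generated -/
lemma fg {K : Set G} (hK : IsCompact K) (hG : AddSubgroup.closure K = ⊤) (W : AddSubgroup G)
    (hW : IsOpen (W : Set G)) : Module.Finite ℤ (G ⧸ W) := by
  rw [Module.Finite.iff_addGroup_fg, AddGroup.fg_iff]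
  have hn : ∀ x ∈ K, {y : G | y - x ∈ W} ∈ 𝓝 x := by
    intro x _
    have h1 : IsOpen {y : G | y - x ∈ W} := hW.preimage (continuous_id.sub continuous_const)
    exact h1.mem_nhds (by simp [W.zero_mem])
  obtain ⟨t, _, htc⟩ := hK.elim_nhds_subcover (fun x => {y : G | y - x ∈ W}) hn
  refine ⟨(QuotientAddGroup.mk' W) '' (t : Set G), ?_, (t.finite_toSet).image _⟩
  rw [eq_top_iff]
  have h2 : AddSubgroup.map (QuotientAddGroup.mk' W) (AddSubgroup.closure K) = ⊤ := by
    rw [hG]
    exact AddSubgroup.map_top_of_surjective _ (QuotientAddGroup.mk'_surjective W)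
  rw [← h2, AddMonoidHom.map_closure]
  refine AddSubgroup.closure_mono ?_
  rintro _ ⟨y, hy, rfl⟩
  have h3 := htc hy
  simp only [mem_iUnion, mem_setOf_eq] at h3
  obtain ⟨x, hx, hxy⟩ := h3
  refine ⟨x, hx, ?_⟩
  rw [QuotientAddGroup.mk'_apply, QuotientAddGroup.mk'_apply, QuotientAddGroup.eq]
  rw [neg_add_eq_sub]
  exact hxy

/-- the quotient is torsion-free -/
lemma tf (W : AddSubgroup G) (hW : Sat W) : IsAddTorsionFree (G ⧸ W) := by
  refine ⟨fun n hn x y hxy => ?_⟩
  obtain ⟨a, rfl⟩ := QuotientAddGroup.mk'_surjective W x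
  obtain ⟨b, rfl⟩ := QuotientAddGroup.mk'_surjective W y
  have h1 : n • (QuotientAddGroup.mk' W a) = n • (QuotientAddGroup.mk' W b) := hxy
  rw [← map_nsmul, ← map_nsmul, QuotientAddGroup.mk'_apply, QuotientAddGroup.mk'_apply,
    QuotientAddGroup.eq, neg_add_eq_sub, ← nsmul_sub] at h1
  have h2 := hW.2 n _ hn h1
  rw [QuotientAddGroup.mk'_apply, QuotientAddGroup.mk'_apply, QuotientAddGroup.eq,
    neg_add_eq_sub]
  exact h2

end Quot

theorem quot_spec : S_quot := by
  intro G _ _ _ ⟨K, hK, hG⟩ W hW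
  haveI := Quot.fg hK hG W hW.1
  haveI := Quot.tf W hW
  haveI : Module.Free ℤ (G ⧸ W) := Module.free_of_finite_type_torsion_free'
  set b := Module.finBasis ℤ (G ⧸ W) with hb
  set r := Module.finrank ℤ (G ⧸ W) with hr
  refine ⟨r, fun i => (b.coord i).toAddMonoidHom.comp (QuotientAddGroup.mk' W), ?_, ?_, ?_, ?_⟩
  · intro i g hg
    rw [AddMonoidHom.mem_ker]
    have h1 : QuotientAddGroup.mk' W g = 0 := by
      rw [QuotientAddGroup.mk'_apply]
      exact (QuotientAddGroup.eq_zero_iff g).2 hg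
    rw [AddMonoidHom.comp_apply, h1, map_zero]
  · intro g hg
    have h1 : b.repr (QuotientAddGroup.mk' W g) = 0 := by
      ext i
      exact hg i
    have h2 : QuotientAddGroup.mk' W g = 0 := by
      rwa [LinearEquiv.map_eq_zero_iff] at h1
    rw [QuotientAddGroup.mk'_apply] at h2
    exact (QuotientAddGroup.eq_zero_iff g).1 h2
  · intro z
    obtain ⟨g, hg⟩ := QuotientAddGroup.mk'_surjective W (∑ i, z i • b i)
    refine ⟨g, fun i => ?_⟩
    show b.repr (QuotientAddGroup.mk' W g) i = z i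
    rw [hg, b.repr_sum_self]
  · intro ψ hψ
    set ψ' : (G ⧸ W) →+ ℤ := QuotientAddGroup.lift W ψ hψ with hψ'
    refine ⟨fun i => ψ' (b i), ?_⟩
    ext g
    have h1 : ψ g = ψ' (QuotientAddGroup.mk' W g) := rfl
    have h2 : QuotientAddGroup.mk' W g = ∑ i, b.repr (QuotientAddGroup.mk' W g) i • b i :=
      (b.sum_repr _).symm
    rw [h1]
    conv_lhs => rw [h2]
    rw [map_sum, AddMonoidHom.finset_sum_apply]
    refine Finset.sum_congr rfl fun i _ => ?_
    rw [map_zsmul, smul_eq_mul, mul_comm]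
    rfl

end Pool.Agent.Y938.PD
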