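import Pool.Agent.Y938.PD.Stm

/-! # PD1: saturated open subgroups form a basis -/

set_option autoImplicit false

open Filter Topology Set
open scoped nonZeroDivisors

namespace Pool.Agent.Y938.PD

namespace Sat1

variable {G : Type} [AddCommGroup G]

/-- the saturation of a subgroup -/
def sat (W : AddSubgroup G) : AddSubgroup G where
  carrier := {g | ∃ n : ℕ, n ≠ 0 ∧ n • g ∈ W}
  zero_mem' := ⟨1, one_ne_zero, by rw [smul_zero]; exact W.zero_mem⟩
  add_mem' := by
    rintro a b ⟨n, hn, ha⟩ ⟨m, hm, hb⟩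
    refine ⟨n * m, mul_ne_zero hn hm, ?_⟩
    rw [smul_add]
    refine W.add_mem ?_ ?_
    · rw [mul_comm, mul_smul]
      exact W.nsmul_mem ha m
    · rw [mul_smul]
      exact W.nsmul_mem hb n
  neg_mem' := by
    rintro a ⟨n, hn, ha⟩
    exact ⟨n, hn, by rw [smul_neg]; exact W.neg_mem ha⟩

theorem mem_sat {W : AddSubgroup G} {g : G} : g ∈ sat W ↔ ∃ n : ℕ, n ≠ 0 ∧ n • g ∈ W := Iff.rfl

theorem le_sat (W : AddSubgroup G) : W ≤ sat W := fun g hg =>
  mem_sat.2 ⟨1, one_ne_zero, by rwa [one_smul]⟩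

theorem sat_mono {W U : AddSubgroup G} (h : W ≤ U) : sat W ≤ sat U := by
  rintro g ⟨n, hn, hg⟩
  exact ⟨n, hn, h hg⟩

theorem sat_sat {W : AddSubgroup G} (n : ℕ) (g : G) (hn : n ≠ 0) (h : n • g ∈ sat W) :
    g ∈ sat W := by
  obtain ⟨m, hm, h⟩ := mem_sat.1 h
  exact mem_sat.2 ⟨m * n, mul_ne_zero hm hn, by rwa [mul_smul]⟩

variable [TopologicalSpace G] [IsTopologicalAddGroup G]

theorem isOpen_sat {W : AddSubgroup G} (h : IsOpen (W : Set G)) : IsOpen (sat W : Set G) :=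
  AddSubgroup.isOpen_mono (le_sat W) h

/-- the saturation is a finite union of cosets -/
theorem finite_cover (hK : ∃ K : Set G, IsCompact K ∧ AddSubgroup.closure K = ⊤)
    {W : AddSubgroup G} (hW : IsOpen (W : Set G)) :
    ∃ F : Set G, F.Finite ∧ (sat W : Set G) ⊆ ⋃ f ∈ F, {g : G | g - f ∈ W} := by
  obtain ⟨K, hK, hgen⟩ := hK
  -- the image of `K` in the quotient is finite
  have hfin : ((QuotientAddGroup.mk' W) '' K).Finite := by
    obtain ⟨t, _, ht⟩ := hK.elim_nhds_subcover (fun k => {g : G | g - k ∈ W}) (by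
      intro k _
      refine IsOpen.mem_nhds (hW.preimage (continuous_id.sub continuous_const)) ?_
      show k - k ∈ W
      rw [sub_self]
      exact W.zero_mem)
    refine (t.finite_toSet.image (QuotientAddGroup.mk' W)).subset ?_
    rintro _ ⟨k, hk, rfl⟩
    obtain ⟨f, hf, hkf⟩ := mem_iUnion₂.1 (ht hk)
    refine ⟨f, hf, ?_⟩
    rw [QuotientAddGroup.mk'_apply, QuotientAddGroup.mk'_apply, QuotientAddGroup.eq]
    have : k - f ∈ W := hkf
    rwa [sub_eq_neg_add] at this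
  have hcl : AddSubgroup.closure ((QuotientAddGroup.mk' W) '' K) = ⊤ := by
    rw [← AddMonoidHom.map_closure, hgen]
    exact AddSubgroup.map_top_of_surjective _ (QuotientAddGroup.mk'_surjective W)
  have hFG : AddGroup.FG (G ⧸ W) := AddGroup.fg_iff.2 ⟨_, hcl, hfin⟩
  have hMF : Module.Finite ℤ (G ⧸ W) := Module.Finite.iff_addGroup_fg.2 hFG
  have hT : Finite (Submodule.torsion ℤ (G ⧸ W)) :=
    Module.finite_of_fg_torsion _ Submodule.torsion_isTorsion
  refine ⟨(fun q : G ⧸ W => Quotient.out q) '' (Submodule.torsion ℤ (G ⧸ W) : Set (G ⧸ W)),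
    (Set.toFinite _).image _, ?_⟩
  intro g hg
  obtain ⟨n, hn, hg⟩ := mem_sat.1 hg
  refine mem_iUnion₂.2 ⟨Quotient.out (QuotientAddGroup.mk g : G ⧸ W), ⟨_, ?_, rfl⟩, ?_⟩
  · show (QuotientAddGroup.mk g : G ⧸ W) ∈ Submodule.torsion ℤ (G ⧸ W)
    rw [Submodule.mem_torsion_iff]
    refine ⟨⟨(n : ℤ), mem_nonZeroDivisors_iff_ne_zero.2 (by exact_mod_cast hn)⟩, ?_⟩
    show (n : ℤ) • (QuotientAddGroup.mk g : G ⧸ W) = 0
    rw [natCast_zsmul, ← QuotientAddGroup.mk_nsmul, QuotientAddGroup.eq_zero_iff]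
    exact hg
  · show g - Quotient.out (QuotientAddGroup.mk g : G ⧸ W) ∈ W
    have h1 : (QuotientAddGroup.mk (Quotient.out (QuotientAddGroup.mk g : G ⧸ W)) : G ⧸ W) =
        QuotientAddGroup.mk g := Quotient.out_eq' _
    rw [QuotientAddGroup.eq] at h1
    rwa [sub_eq_neg_add]

end Sat1

namespace Sat2

open Sat1

variable {G : Type} [AddCommGroup G] [UniformSpace G] [IsUniformAddGroup G]

theorem conv [CompleteSpace G] (hB : Bas G)
    (hK : ∃ K : Set G, IsCompact K ∧ AddSubgroup.closure K = ⊤) (F : Ultrafilter G)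
    (hF : ∀ W : AddSubgroup G, IsOpen (W : Set G) → (sat W : Set G) ∈ F) :
    ∃ x, (F : Filter G) ≤ 𝓝 x ∧ ∀ W : AddSubgroup G, IsOpen (W : Set G) → x ∈ sat W := by
  have hcauchy : Cauchy (F : Filter G) := by
    refine ⟨F.neBot, ?_⟩
    rw [uniformity_eq_comap_nhds_zero]
    intro V hV
    obtain ⟨s, hs, hsV⟩ := mem_comap.1 hV
    obtain ⟨W, hW, hWs⟩ := hB s hs
    obtain ⟨T, hT, hcov⟩ := finite_cover hK hW
    have h1 : (⋃ f ∈ T, {g : G | g - f ∈ W}) ∈ F := mem_of_superset (hF W hW) hcov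
    obtain ⟨f, _, hf⟩ := (Ultrafilter.finite_biUnion_mem_iff hT).1 h1
    refine mem_prod_iff.2 ⟨_, hf, _, hf, ?_⟩
    rintro ⟨a, b⟩ ⟨ha, hb⟩
    apply hsV
    apply hWs
    show b - a ∈ W
    have : b - a = (b - f) - (a - f) := by abel
    rw [this]
    exact W.sub_mem hb ha
  obtain ⟨x, hx⟩ := CompleteSpace.complete hcauchy
  refine ⟨x, hx, fun W hW => ?_⟩
  have hcl : IsClosed (sat W : Set G) := AddSubgroup.isClosed_of_isOpen _ (isOpen_sat hW)
  exact isClosed_iff_ultrafilter.1 hcl x F hx (hF W hW)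

end Sat2

open Sat1 Sat2 in
theorem sat_spec : S_sat := by
  intro G _ _ _ _ _ hB hK hC s hs
  obtain ⟨U, hU, hUs⟩ := hB s hs
  -- it is enough to find an open `W` whose saturation is contained in `U`
  suffices h : ∃ W : AddSubgroup G, IsOpen (W : Set G) ∧ (sat W : Set G) ⊆ U by
    obtain ⟨W, hW, hWU⟩ := h
    exact ⟨sat W, ⟨isOpen_sat hW, fun n g hn hg => sat_sat n g hn hg⟩, hWU.trans hUs⟩
  by_contra hcon
  push Not at hcon
  -- the intersection of all saturations is trivial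
  let T : AddSubgroup G := ⨅ W : {W : AddSubgroup G // IsOpen (W : Set G)}, sat W.1
  have memT : ∀ x, x ∈ T ↔ ∀ W : AddSubgroup G, IsOpen (W : Set G) → x ∈ sat W := by
    intro x
    rw [AddSubgroup.mem_iInf]
    exact ⟨fun h W hW => h ⟨W, hW⟩, fun h W => h W.1 W.2⟩
  have hT : T = ⊥ := by
    apply hC
    rw [isCompact_iff_ultrafilter_le_nhds']
    intro F hF
    obtain ⟨x, hx1, hx2⟩ := conv hB hK F (fun W hW =>
      mem_of_superset hF (fun y hy => (memT y).1 hy W hW))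
    exact ⟨x, (memT x).2 hx2, hx1⟩
  -- the directed family of the sets `sat W \ U`
  let ι := {W : AddSubgroup G // IsOpen (W : Set G)}
  have : Nonempty ι := ⟨⟨U, hU⟩⟩
  let f : ι → Filter G := fun W => 𝓟 ((sat W.1 : Set G) \ U)
  have hdir : Directed (· ≥ ·) f := by
    intro W1 W2
    refine ⟨⟨W1.1 ⊓ W2.1, by
      rw [AddSubgroup.coe_inf]
      exact W1.2.inter W2.2⟩, ?_, ?_⟩
    · exact principal_mono.2 (diff_subset_diff_left (sat_mono inf_le_left))
    · exact principal_mono.2 (diff_subset_diff_left (sat_mono inf_le_right))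
  have hne : (⨅ W, f W).NeBot := by
    refine iInf_neBot_of_directed' hdir fun W => ?_
    rw [principal_neBot_iff]
    obtain ⟨x, hx1, hx2⟩ := not_subset.1 (hcon W.1 W.2)
    exact ⟨x, hx1, hx2⟩
  let F : Ultrafilter G := Ultrafilter.of (⨅ W, f W)
  have hF : ∀ W : AddSubgroup G, IsOpen (W : Set G) → ((sat W : Set G) \ U) ∈ F := by
    intro W hW
    have h1 : (F : Filter G) ≤ f ⟨W, hW⟩ := (Ultrafilter.of_le _).trans (iInf_le f ⟨W, hW⟩)
    exact h1 (mem_principal_self _)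
  obtain ⟨x, hx1, hx2⟩ := conv hB hK F (fun W hW => mem_of_superset (hF W hW) diff_subset)
  have hxT : x ∈ T := (memT x).2 hx2
  rw [hT, AddSubgroup.mem_bot] at hxT
  have hxU : x ∉ (U : Set G) := by
    have hcl : IsClosed ((U : Set G)ᶜ) := hU.isClosed_compl
    refine isClosed_iff_ultrafilter.1 hcl x F hx1 (mem_of_superset (hF U hU) ?_)
    exact fun y hy => hy.2
  rw [hxT] at hxU
  exact hxU U.zero_mem

end Pool.Agent.Y938.PD
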