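import Mathlib

/-!
Project PD (MP_5ee74f_al, frozen statement S01635): compactly generated abelian prodiscrete compact-free
groups are finitely generated free.
-/

set_option autoImplicit false

open Filter Topology Set

namespace Pool.Agent.Y938.PD

/-- open subgroups form a basis at `0` -/
def Bas (G : Type) [AddCommGroup G] [TopologicalSpace G] : Prop :=
  ∀ s ∈ nhds (0 : G), ∃ U : AddSubgroup G, IsOpen (U : Set G) ∧ (U : Set G) ⊆ s

/-- no nontrivial compact subgroups -/
def Cf (G : Type) [AddCommGroup G] [TopologicalSpace G] : Prop :=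
  ∀ H : AddSubgroup G, IsCompact (H : Set G) → H = ⊥

/-- open subgroup with torsion-free quotient -/
def Sat {G : Type} [AddCommGroup G] [TopologicalSpace G] (W : AddSubgroup G) : Prop :=
  IsOpen (W : Set G) ∧ ∀ (n : ℕ) (g : G), n ≠ 0 → n • g ∈ W → g ∈ W

/-- the group of the continuous homomorphisms to the discrete group of the integers -/
def Chr (G : Type) [AddCommGroup G] [TopologicalSpace G] : AddSubgroup (G →+ ℤ) where
  carrier := {χ | Continuous χ}
  zero_mem' := by
    change Continuous (fun _ : G => (0 : ℤ))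
    exact continuous_const
  add_mem' := by
    intro a b ha hb
    change Continuous (fun g : G => a g + b g)
    exact Continuous.add ha hb
  neg_mem' := by
    intro a ha
    change Continuous (fun g : G => -(a g))
    exact Continuous.neg ha

/-- PD1. -/
def S_sat : Prop :=
  ∀ (G : Type) [AddCommGroup G] [UniformSpace G] [IsUniformAddGroup G] [T2Space G] [CompleteSpace G],
    Bas G → (∃ K : Set G, IsCompact K ∧ AddSubgroup.closure K = ⊤) → Cf G →
    ∀ s ∈ nhds (0 : G), ∃ W : AddSubgroup G, Sat W ∧ (W : Set G) ⊆ s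

/-- PD2. -/
def S_quot : Prop :=
  ∀ (G : Type) [AddCommGroup G] [TopologicalSpace G] [IsTopologicalAddGroup G],
    (∃ K : Set G, IsCompact K ∧ AddSubgroup.closure K = ⊤) → ∀ W : AddSubgroup G, Sat W →
    ∃ (r : ℕ) (χ : Fin r → (G →+ ℤ)), (∀ i, W ≤ (χ i).ker) ∧ (∀ g, (∀ i, χ i g = 0) → g ∈ W) ∧
      (∀ z : Fin r → ℤ, ∃ g, ∀ i, χ i g = z i) ∧
      (∀ ψ : G →+ ℤ, W ≤ ψ.ker → ∃ c : Fin r → ℤ, ψ = ∑ i, c i • χ i)

/-- PD3: every homomorphism from the group of characters to the integers is an evaluation. -/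
def S_eval : Prop :=
  ∀ (G : Type) [AddCommGroup G] [UniformSpace G] [IsUniformAddGroup G] [T2Space G] [CompleteSpace G],
    (∃ K : Set G, IsCompact K ∧ AddSubgroup.closure K = ⊤) →
    (∀ s ∈ nhds (0 : G), ∃ W : AddSubgroup G, Sat W ∧ (W : Set G) ⊆ s) →
    ∀ h : Chr G →+ ℤ, ∃ g : G, ∀ χ : Chr G, h χ = χ.1 g

/-- PD4: Nöbeling's theorem and a gliding hump. -/
def S_nob : Prop :=
  ∀ (G : Type) [AddCommGroup G] [UniformSpace G] [IsUniformAddGroup G] [T2Space G],
    Bas G → ∀ K : Set G, IsCompact K → AddSubgroup.closure K = ⊤ →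
    (∀ h : Chr G →+ ℤ, ∃ m : ℕ, ∀ (χ : Chr G) (B : ℕ), (∀ k ∈ K, |χ.1 k| ≤ B) → |h χ| ≤ m * B) →
    ∃ (r : ℕ) (χ : Fin r → Chr G), ∀ ψ : Chr G, ∃ c : Fin r → ℤ, ψ = ∑ i, c i • χ i

end Pool.Agent.Y938.PD
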